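import Pool.Agent.Q218.LE.Stm2

/-! Project LE (helper218), job SPL -/

set_option autoImplicit false

open scoped BigOperators
open MeasureTheory ProbabilityTheory

namespace Pool.Agent.Q91.LE

theorem spl_gen {ι : Type*} [Countable ι] [DecidableEq ι] (μ : Measure ℝ) [IsProbabilityMeasure μ] (K : Finset ι)
    (Q : (ι → ℝ) → ℝ) (hQ : Integrable Q (Measure.infinitePi fun _ : ι => μ)) :
    ∃ ω' : ι → ℝ,
      Integrable (fun ω => Q fun x => if x ∈ K then ω x else ω' x)
        (Measure.infinitePi fun _ : ι => μ) ∧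
      ∫ ω, (Q fun x => if x ∈ K then ω x else ω' x) ∂(Measure.infinitePi fun _ : ι => μ) ≤
        ∫ ω, Q ω ∂(Measure.infinitePi fun _ : ι => μ) := by
  set P : Measure (ι → ℝ) := Measure.infinitePi fun _ : ι => μ with hP
  let Φ : (ι → ℝ) × (ι → ℝ) → ι → ℝ := fun p x => if x ∈ K then p.1 x else p.2 x
  have hΦ : Measurable Φ := by
    refine measurable_pi_lambda _ fun x => ?_
    by_cases hx : x ∈ K
    · simp only [Φ, hx, if_true]
      exact (measurable_pi_apply x).comp measurable_fst
    · simp only [Φ, hx, if_false]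
      exact (measurable_pi_apply x).comp measurable_snd
  have hmap : (P.prod P).map Φ = P := by
    rw [hP]
    refine Measure.eq_infinitePi _ fun s t ht => ?_
    have hms : MeasurableSet (Set.pi (s : Set ι) t) :=
      MeasurableSet.pi s.countable_toSet fun i _ => ht i
    rw [Measure.map_apply hΦ hms]
    have h1 : Φ ⁻¹' (Set.pi (s : Set ι) t) =
        (Set.pi ((s.filter (fun x => x ∈ K) : Finset ι) : Set ι) t) ×ˢ
        (Set.pi ((s.filter (fun x => x ∉ K) : Finset ι) : Set ι) t) := by
      ext ⟨ω, ω'⟩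
      simp only [Set.mem_preimage, Set.mem_pi, Set.mem_prod, Finset.mem_coe, Finset.mem_filter, Φ]
      constructor
      · intro h
        exact ⟨fun x hx => by have := h x hx.1; rwa [if_pos hx.2] at this,
          fun x hx => by have := h x hx.1; rwa [if_neg hx.2] at this⟩
      · rintro ⟨h1, h2⟩ x hx
        by_cases hK : x ∈ K
        · rw [if_pos hK]; exact h1 x ⟨hx, hK⟩
        · rw [if_neg hK]; exact h2 x ⟨hx, hK⟩
    rw [h1, Measure.prod_prod, Measure.infinitePi_pi _ (fun x _ => ht x),
      Measure.infinitePi_pi _ (fun x _ => ht x),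
      Finset.prod_filter_mul_prod_filter_not]
  have hI : Integrable (fun p => Q (Φ p)) (P.prod P) := by
    have : Integrable Q ((P.prod P).map Φ) := by rw [hmap]; exact hQ
    exact (integrable_map_measure this.aestronglyMeasurable hΦ.aemeasurable).1 this
  have hint : ∫ ω, Q ω ∂P = ∫ ω', ∫ ω, Q (Φ (ω, ω')) ∂P ∂P := by
    conv_lhs => rw [← hmap]
    rw [integral_map hΦ.aemeasurable (by rw [hmap]; exact hQ.aestronglyMeasurable)]
    exact integral_prod_symm _ hI
  have hae := hI.prod_left_ae
  obtain ⟨ω', h1, h2⟩ := exists_notMem_null_le_integral hI.integral_prod_right (ae_iff.1 hae)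
  refine ⟨ω', ?_, ?_⟩
  · simpa using h1
  · rw [hint]
    exact h2

open Pool.Agent.H4R2.LO (Zd) in
theorem t_SPL : Pool.Agent.Q218.LE.S_SPL := by
  intro d μ _ K Q hQ
  exact spl_gen μ K Q hQ

end Pool.Agent.Q91.LE
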