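import Mathlib

set_option autoImplicit false

open scoped BigOperators Topology InnerProductSpace
open MeasureTheory Filter Set

namespace Pool.Agent.Q91.LE

theorem sqrt_growth (D D' : ℝ → ℝ) (w : ℝ) (hw : 0 ≤ w) (hD : ∀ s, HasDerivAt D (D' s) s)
    (h0 : D 0 = 0) (hn : ∀ s, 0 ≤ D s) (hb : ∀ s, D' s ≤ 2 * √(D s) * w) (t : ℝ) (ht : 0 ≤ t) :
    √(D t) ≤ w * t := by
  refine le_of_forall_pos_le_add fun ε hε => ?_
  have hpos : ∀ s, 0 < D s + ε ^ 2 := fun s => add_pos_of_nonneg_of_pos (hn s) (by positivity)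
  have hder : ∀ s, HasDerivAt (fun s => √(D s + ε ^ 2) - w * s)
      (D' s / (2 * √(D s + ε ^ 2)) - w) s := by
    intro s
    have h1 : HasDerivAt (fun s => D s + ε ^ 2) (D' s) s := (hD s).add_const _
    have h2 := h1.sqrt (hpos s).ne'
    have h3 : HasDerivAt (fun s : ℝ => w * s) w s := by
      simpa using (hasDerivAt_id s).const_mul w
    exact h2.sub h3
  have hanti : Antitone (fun s => √(D s + ε ^ 2) - w * s) := by
    refine antitone_of_deriv_nonpos (fun s => (hder s).differentiableAt) fun s => ?_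
    rw [(hder s).deriv]
    have h4 : 0 < √(D s + ε ^ 2) := Real.sqrt_pos.2 (hpos s)
    have h5 : √(D s) ≤ √(D s + ε ^ 2) := Real.sqrt_le_sqrt (by nlinarith [sq_nonneg ε])
    have h6 : D' s / (2 * √(D s + ε ^ 2)) ≤ w := by
      rw [div_le_iff₀ (by positivity)]
      have := hb s
      nlinarith
    linarith
  have h7 := hanti ht
  simp only [h0, mul_zero, sub_zero, zero_add, Real.sqrt_sq hε.le] at h7
  have h8 : √(D t) ≤ √(D t + ε ^ 2) := Real.sqrt_le_sqrt (by nlinarith [sq_nonneg ε])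
  linarith

theorem orth_norm {E ι : Type*} [NormedAddCommGroup E] [InnerProductSpace ℂ E] [DecidableEq ι]
    (s : Finset ι) (c : ι → ℂ) (hc : ∀ i, ‖c i‖ ≤ 1) (v : ι → E) (r : ι → ℝ) (hr : ∀ i, 0 ≤ r i)
    (hv : ∀ i j, ⟪v i, v j⟫_ℂ = if i = j then (r i : ℂ) else 0) :
    ‖∑ i ∈ s, c i • v i‖ ^ 2 ≤ ∑ i ∈ s, r i := by
  have h1 : ⟪∑ i ∈ s, c i • v i, ∑ i ∈ s, c i • v i⟫_ℂ =
      ((∑ i ∈ s, ‖c i‖ ^ 2 * r i : ℝ) : ℂ) := by
    rw [sum_inner]
    push_cast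
    refine Finset.sum_congr rfl fun i hi => ?_
    rw [inner_sum, Finset.sum_eq_single i]
    · rw [inner_smul_left, inner_smul_right, hv, if_pos rfl, ← mul_assoc,
        ← Complex.normSq_eq_conj_mul_self, Complex.normSq_eq_norm_sq]
      push_cast
      rfl
    · intro j _ hj
      rw [inner_smul_left, inner_smul_right, hv, if_neg (Ne.symm hj), mul_zero, mul_zero]
    · intro h; exact absurd hi h
  have h2 : ‖∑ i ∈ s, c i • v i‖ ^ 2 = ∑ i ∈ s, ‖c i‖ ^ 2 * r i := by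
    have h3 := inner_self_eq_norm_sq (𝕜 := ℂ) (∑ i ∈ s, c i • v i)
    rw [h1] at h3
    rw [← h3]
    simp only [RCLike.re_to_complex, Complex.ofReal_re]
  rw [h2]
  refine Finset.sum_le_sum fun i _ => ?_
  have h4 := hc i
  have h5 := norm_nonneg (c i)
  exact mul_le_of_le_one_left (hr i) (pow_le_one₀ h5 h4)

theorem gen_grow {E ι : Type*} [NormedAddCommGroup E] [InnerProductSpace ℂ E]
    (H H' : E →L[ℂ] E) (hH : ∀ u v, ⟪H u, v⟫_ℂ = ⟪u, H v⟫_ℂ) (u u' : ι → ℝ → E)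
    (hu : ∀ x s, HasDerivAt (u x) ((-Complex.I) • H (u x s)) s)
    (hu' : ∀ x s, HasDerivAt (u' x) ((-Complex.I) • H' (u' x s)) s)
    (h0 : ∀ x, u x 0 = u' x 0) (Λ : Finset ι) (w : ℝ) (hw : 0 ≤ w)
    (hW : ∀ s, ∑ x ∈ Λ, ‖H (u' x s) - H' (u' x s)‖ ^ 2 ≤ w ^ 2) (t : ℝ) (ht : 0 ≤ t) :
    √(∑ x ∈ Λ, ‖u x t - u' x t‖ ^ 2) ≤ w * t := by
  let v : ι → ℝ → E := fun x s => u x s - u' x s
  let v' : ι → ℝ → E := fun x s => (-Complex.I) • (H (v x s) + (H (u' x s) - H' (u' x s)))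
  have hv : ∀ x s, HasDerivAt (v x) (v' x s) s := by
    intro x s
    refine ((hu x s).sub (hu' x s)).congr_deriv ?_
    simp only [v, v', map_sub, ← smul_sub]
    congr 1
    abel
  let D' : ℝ → ℝ := fun s => ∑ x ∈ Λ, 2 * (⟪v x s, v' x s⟫_ℂ).re
  have hnv : ∀ x s, HasDerivAt (fun s => ‖v x s‖ ^ 2) (2 * (⟪v x s, v' x s⟫_ℂ).re) s := by
    intro x s
    have h1 := HasDerivAt.inner ℂ (hv x s) (hv x s)
    have h2 := Complex.reCLM.hasFDerivAt.comp_hasDerivAt s h1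
    have h3 : (fun s => ‖v x s‖ ^ 2) = Complex.reCLM ∘ fun s => ⟪v x s, v x s⟫_ℂ := by
      funext s
      have := inner_self_eq_norm_sq (𝕜 := ℂ) (v x s)
      rw [← this]
      rfl
    rw [h3]
    refine h2.congr_deriv ?_
    have h4 : ⟪v' x s, v x s⟫_ℂ = (starRingEnd ℂ) ⟪v x s, v' x s⟫_ℂ := (inner_conj_symm _ _).symm
    rw [h4, map_add, Complex.reCLM_apply, Complex.reCLM_apply, Complex.conj_re]
    ring
  have hD : ∀ s, HasDerivAt (fun s => ∑ x ∈ Λ, ‖v x s‖ ^ 2) (D' s) s := fun s =>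
    HasDerivAt.fun_sum fun x _ => hnv x s
  refine sqrt_growth (fun s => ∑ x ∈ Λ, ‖v x s‖ ^ 2) D' w hw hD ?_
    (fun s => Finset.sum_nonneg fun x _ => by positivity) ?_ t ht
  · refine Finset.sum_eq_zero fun x _ => ?_
    simp only [v, h0, sub_self, norm_zero]
    norm_num
  · intro s
    have h1 : ∀ x, (⟪v x s, v' x s⟫_ℂ).re ≤ ‖v x s‖ * ‖H (u' x s) - H' (u' x s)‖ := by
      intro x
      simp only [v']
      rw [smul_add, inner_add_right, Complex.add_re]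
      have h2 : (⟪v x s, (-Complex.I) • H (v x s)⟫_ℂ).re = 0 := by
        rw [inner_smul_right]
        have h3 : (starRingEnd ℂ) ⟪v x s, H (v x s)⟫_ℂ = ⟪v x s, H (v x s)⟫_ℂ := by
          rw [inner_conj_symm, hH]
        have h4 := Complex.conj_eq_iff_im.1 h3
        simp [h4]
      rw [h2, zero_add]
      refine (Complex.re_le_norm _).trans ((norm_inner_le_norm _ _).trans (le_of_eq ?_))
      rw [norm_smul, norm_neg, Complex.norm_I, one_mul]
    calc D' s ≤ ∑ x ∈ Λ, 2 * (‖v x s‖ * ‖H (u' x s) - H' (u' x s)‖) :=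
          Finset.sum_le_sum fun x _ => by linarith [h1 x]
      _ = 2 * ∑ x ∈ Λ, ‖v x s‖ * ‖H (u' x s) - H' (u' x s)‖ := by rw [Finset.mul_sum]
      _ ≤ 2 * (√(∑ x ∈ Λ, ‖v x s‖ ^ 2) * √(∑ x ∈ Λ, ‖H (u' x s) - H' (u' x s)‖ ^ 2)) := by
          have := Real.sum_mul_le_sqrt_mul_sqrt Λ (fun x => ‖v x s‖)
            (fun x => ‖H (u' x s) - H' (u' x s)‖)
          linarith
      _ ≤ 2 * (√(∑ x ∈ Λ, ‖v x s‖ ^ 2) * w) := by
          have h5 : √(∑ x ∈ Λ, ‖H (u' x s) - H' (u' x s)‖ ^ 2) ≤ w :=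
            Real.sqrt_le_iff.2 ⟨hw, hW s⟩
          have h6 := Real.sqrt_nonneg (∑ x ∈ Λ, ‖v x s‖ ^ 2)
          nlinarith
      _ = _ := by ring

end Pool.Agent.Q91.LE
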