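import Pool.Agent.Q218.LE.Stm2
import Pool.Agent.Q150.WE.LIPK

/-! Project LE (helper218), job LIP: the time averaged observable is a Lipschitz function of the
potential. Derived from the generalisation `Pool.Agent.Q150.WE.LIPK`. -/

set_option autoImplicit false

open scoped BigOperators Topology InnerProductSpace
open MeasureTheory Filter Set

namespace Pool.Agent.Q91.LE.LIP

open Pool.Agent.H4R2.LO (Zd)
open Pool.Agent.TH794.QD (Sol HS)
open Pool.Agent.Q218.AT (HT uu vv vv_apply Ob Ob_cont Ob_sq Bm Sc)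
open Pool.Agent.Q218.WE (vw S_LIPK)

theorem vw_self {d : ℕ} (f : HS d) : vw f f = vv f := rfl

theorem Ob_sub {d : ℕ} {V V' : Zd d → ℝ} {ψ ψ' : Zd d → ℝ → Zd d → ℂ}
    (hd : 1 ≤ d) (hψ : ∀ a, Sol d V a (ψ a)) (hψ' : ∀ a, Sol d V' a (ψ' a))
    (K : Finset (Zd d)) (hK : ∀ x, x ∉ K → V x = V' x)
    (Λ : Finset (Zd d)) (c : Zd d → ℂ) (hc : ∀ x, ‖c x‖ ≤ 1) (t : ℝ) (ht : 0 ≤ t) :
    ‖Ob hψ Λ c t - Ob hψ' Λ c t‖ ≤ 2 * t * Real.sqrt (∑ x ∈ K, (V x - V' x) ^ 2) := by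
  have h := Pool.Agent.Q150.WE.t_LIPK d hd V V' ψ ψ' hψ hψ' K hK Λ c 0 hc t ht
  have h1 : Ob hψ Λ c t - Ob hψ' Λ c t =
      ∑ x ∈ Λ, c x • (vw (uu hψ x t) (uu hψ (x + 0) t) - vw (uu hψ' x t) (uu hψ' (x + 0) t)) := by
    unfold Ob
    rw [← Finset.sum_sub_distrib]
    refine Finset.sum_congr rfl fun x _ => ?_
    rw [add_zero, vw_self, vw_self, smul_sub]
  rw [h1]
  exact h

end Pool.Agent.Q91.LE.LIP

namespace Pool.Agent.Q91.LE

open Pool.Agent.H4R2.LO (Zd)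
open Pool.Agent.TH794.QD (Sol HS)
open Pool.Agent.Q218.AT (HT uu vv vv_apply Ob Ob_cont Ob_sq Bm Sc)

theorem t_LIP : Pool.Agent.Q218.LE.S_LIP := by
  intro d hd V V' ψ ψ' hψ hψ' K hK Λ c hc T hT
  obtain ⟨w, hw⟩ : ∃ w, w = Real.sqrt (∑ x ∈ K, (V x - V' x) ^ 2) := ⟨_, rfl⟩
  rw [← Ob_sq hd hψ, ← Ob_sq hd hψ', Real.sqrt_sq (norm_nonneg _), Real.sqrt_sq (norm_nonneg _),
    ← hw]
  refine (abs_norm_sub_norm_le _ _).trans ?_
  have hc1 : Continuous fun s : ℝ => Ob hψ Λ c (s * T) :=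
    (Ob_cont hd hψ Λ c).comp (by fun_prop)
  have hc2 : Continuous fun s : ℝ => Ob hψ' Λ c (s * T) :=
    (Ob_cont hd hψ' Λ c).comp (by fun_prop)
  have h1 : Bm (Ob hψ Λ c) T - Bm (Ob hψ' Λ c) T =
      ∫ s in (0 : ℝ)..1, (Ob hψ Λ c (s * T) - Ob hψ' Λ c (s * T)) := by
    unfold Bm
    exact (intervalIntegral.integral_sub (hc1.intervalIntegrable _ _)
      (hc2.intervalIntegrable _ _)).symm
  rw [h1]
  have h2 : ‖∫ s in (0 : ℝ)..1, (Ob hψ Λ c (s * T) - Ob hψ' Λ c (s * T))‖ ≤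
      ∫ s in (0 : ℝ)..1, 2 * (s * T) * w := by
    refine intervalIntegral.norm_integral_le_of_norm_le zero_le_one ?_ ?_
    · refine Filter.Eventually.of_forall fun s hs => ?_
      have := LIP.Ob_sub hd hψ hψ' K hK Λ c hc (s * T) (mul_nonneg hs.1.le hT)
      rw [← hw] at this
      exact this
    · exact Continuous.intervalIntegrable (by fun_prop) _ _
  refine h2.trans (le_of_eq ?_)
  have h3 : (fun s : ℝ => 2 * (s * T) * w) = fun s => (2 * T * w) * s := by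
    funext s
    ring
  rw [h3, intervalIntegral.integral_const_mul, integral_id]
  ring

end Pool.Agent.Q91.LE
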